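import Pool.Agent.H86.OC.ROK
import Pool.Agent.H87.OC.Cost
import Pool.Agent.H6.OC.NF
import Pool.Agent.H97.KAL.CDF
import Pool.Agent.H11.FR.SPc

/-!
# Full rows from active velocities: scalar form, gaps in the times

`Om` is the finite space of the samples, `L` the line, `T` the exact time, `om` the velocity in
units `2 ^ (-X)`, `N` the position of the sample in the same units, `V` a label of the line. The
position is nearly independent of the label. If many digits of the velocity are active and many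
scales of the time have separated pairs, in such a way that a row is hit by many pairs (scale of
the time, digit of the velocity), then the rows of the position are full.
-/

set_option autoImplicit false

namespace Pool.KGS

open Finset Real
open Pool.Agent.H49.Ent Pool.Agent.H32.Dense Pool.STK Pool.KAF Pool.OC Pool.OC.RS

/-- The data. -/
structure SD where
  Om : Type
  Lam : Type
  Tau : Type
  Nu : Type
  [fin : Fintype Om]
  P : Om → ℝ
  L : Om → Lam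
  T : Om → Tau
  V : Lam → Nu
  om : Lam → ℤ
  N : Om → ℤ
  th : Tau → ℝ
  X : ℕ

attribute [instance] SD.fin

namespace SD

variable (d : SD)

/-- The velocity. -/
noncomputable def omR (l : d.Lam) : ℝ := d.om l / 2 ^ d.X

/-- The first `s` digits of the velocity. -/
def oc (s : ℕ) (ω : d.Om) : ℤ := d.om (d.L ω) / ((2 ^ (d.X - s) : ℕ) : ℤ)

/-- The first `i` digits of the time. -/
noncomputable def Ti (i : ℕ) (ω : d.Om) : ℤ := ⌊(2 : ℝ) ^ i * d.th (d.T ω)⌋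

/-- The activity of the digits of the velocity between `s` and `s + Ka`. -/
noncomputable def act (Ka s : ℕ) (ω : d.Om) : ℝ :=
  Pr (cond d.P (d.oc s) (d.oc s ω))
    {v | (2 : ℝ) ^ (-((s : ℤ) + Ka)) ≤ |d.omR (d.L v) - d.omR (d.L ω)|}

/-- The probability that a second time of the window `i` is near the time of the sample. -/
noncomputable def dead (k' i : ℕ) (ω : d.Om) : ℝ :=
  Pr (cond d.P (fun v => (d.L v, d.Ti i v)) (d.L ω, d.Ti i ω))
    {v | |d.th (d.T v) - d.th (d.T ω)| < (2 : ℝ) ^ (-((i : ℤ) + k'))}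

/-- The basic assumptions. -/
structure OK (A : ℕ) : Prop where
  law : IsLaw d.P
  hN : Det d.P (fun ω => (d.L ω, d.T ω)) d.N
  hV : ∀ ω ω', 0 < d.P ω → 0 < d.P ω' → d.V (d.L ω) = d.V (d.L ω') →
    d.om (d.L ω) = d.om (d.L ω')
  hZ : ∀ ω ω', 0 < d.P ω → 0 < d.P ω' → d.L ω = d.L ω' →
    |((d.N ω' : ℝ) - d.N ω) - (d.th (d.T ω') - d.th (d.T ω)) * d.om (d.L ω)| ≤ 2 ^ A

/-- The law of the pairs at the scale `i`. -/
noncomputable def Qp (i : ℕ) : d.Om × d.Om → ℝ := dbl d.P (fun ω => (d.L ω, d.Ti i ω))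

end SD

/-! ### Laws of pairs -/

section

variable {Ω β S : Type} [Fintype Ω]

omit [Fintype Ω] in
theorem law_of_marg {Ω' : Type} [Fintype Ω'] {q : Ω' → ℝ} {p : Ω → ℝ} {f : Ω' → Ω}
    (h : Marg q p f) (ω : Ω) : law q f ω = p ω := by
  classical
  rw [← h ω]
  unfold law
  refine Finset.sum_congr rfl fun v _ => ?_
  split_ifs <;> rfl

/-- Averages over pairs, with a weight. -/
theorem sum_dbl {p : Ω → ℝ} (b : Ω → β) (g : Ω → ℝ) (R : Ω → Ω → Prop)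
    [∀ ω v, Decidable (R ω v)] :
    ∑ w, dbl p b w * (if R w.1 w.2 then g w.1 else 0) =
      ∑ ω, p ω * (g ω * Pr (cond p b (b ω)) {v | R ω v}) := by
  classical
  rw [Fintype.sum_prod_type]
  refine Finset.sum_congr rfl fun ω _ => ?_
  rw [Pool.KAF.Pr_eq, Finset.mul_sum, Finset.mul_sum]
  refine Finset.sum_congr rfl fun v _ => ?_
  unfold Pool.Agent.H32.Dense.dbl Pool.Agent.H49.Ent.glue Pool.Agent.H49.Ent.cond
  by_cases h1 : b ω = b v
  · by_cases h2 : R ω v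
    · rw [if_pos (show v ∈ {v | R ω v} from h2), if_pos h1, if_pos h1.symm, if_pos h2]
      ring
    · rw [if_neg (show v ∉ {v | R ω v} from h2), if_neg h2]
      ring
  · rw [if_neg h1, if_neg (Ne.symm h1)]
    simp

theorem Pr_push {Ω' : Type} [Fintype Ω'] {Q : Ω' → ℝ} {P : Ω → ℝ} {w : Ω' → Ω}
    (h : ∀ ω, law Q w ω = P ω) (f : Ω → S) (s : S) (A : Set Ω) :
    Pr (cond Q (fun v => f (w v)) s) {v | w v ∈ A} = Pr (cond P f s) A :=
  law_push (fun ω => cond_push h f s ω) (fun ω => ω ∈ A) True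

theorem Pr_mono_set {p : Ω → ℝ} (hp : ∀ ω, 0 ≤ p ω) {A B : Set Ω}
    (h : ∀ ω, 0 < p ω → ω ∈ A → ω ∈ B) : Pr p A ≤ Pr p B := by
  classical
  rw [Pool.KAF.Pr_eq, Pool.KAF.Pr_eq]
  refine Finset.sum_le_sum fun ω _ => ?_
  rcases (hp ω).eq_or_lt with h0 | h0
  · rw [← h0]
    split_ifs <;> exact le_rfl
  · by_cases h1 : ω ∈ A
    · rw [if_pos h1, if_pos (h ω h0 h1)]
    · rw [if_neg h1]
      split_ifs
      · exact h0.le
      · exact le_rfl

end

/-! ### One scale -/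

section scale

variable {d : SD}

theorem oc_half {s : ℕ} (hs : s < d.X) (ω : d.Om) : d.oc s ω = d.oc (s + 1) ω / 2 := by
  unfold SD.oc
  have h1 : (2 ^ (d.X - s) : ℕ) = 2 ^ (d.X - (s + 1)) * 2 := by
    rw [← pow_succ]
    congr 1
    omega
  rw [h1]
  push_cast
  rw [Int.ediv_ediv_of_nonneg (by positivity)]

theorem oc_top {s : ℕ} (hs : d.X ≤ s) (ω : d.Om) : d.oc s ω = d.om (d.L ω) := by
  unfold SD.oc
  have h1 : d.X - s = 0 := by omega
  rw [h1]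
  simp

theorem oc_up {s : ℕ} {ω ω' : d.Om} (h1 : d.oc s ω = d.oc s ω')
    (h2 : d.oc (s + 1) ω % 2 = d.oc (s + 1) ω' % 2) : d.oc (s + 1) ω = d.oc (s + 1) ω' := by
  rcases lt_or_ge s d.X with h | h
  · rw [oc_half h, oc_half h] at h1
    omega
  · rw [oc_top h, oc_top h] at h1
    rw [oc_top (by omega), oc_top (by omega), h1]

theorem oc_down {s : ℕ} {ω ω' : d.Om} (h1 : d.oc (s + 1) ω = d.oc (s + 1) ω') :
    d.oc s ω = d.oc s ω' := by
  rcases lt_or_ge s d.X with h | h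
  · rw [oc_half h, oc_half h, h1]
  · rw [oc_top (by omega), oc_top (by omega)] at h1
    rw [oc_top h, oc_top h, h1]

theorem oc_near {s : ℕ} {ω ω' : d.Om} (h : d.oc s ω = d.oc s ω') :
    |d.omR (d.L ω) - d.omR (d.L ω')| ≤ (2 : ℝ) ^ (-(s : ℤ)) := by
  unfold SD.omR
  rcases le_or_gt d.X s with hs | hs
  · rw [oc_top hs, oc_top hs] at h
    rw [h, sub_self, abs_zero]
    positivity
  · unfold SD.oc at h
    have hM : (0 : ℤ) < ((2 ^ (d.X - s) : ℕ) : ℤ) := by positivity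
    have a1 := Int.emod_add_mul_ediv (d.om (d.L ω)) ((2 ^ (d.X - s) : ℕ) : ℤ)
    have a2 := Int.emod_nonneg (d.om (d.L ω)) hM.ne'
    have a3 := Int.emod_lt_of_pos (d.om (d.L ω)) hM
    have b1 := Int.emod_add_mul_ediv (d.om (d.L ω')) ((2 ^ (d.X - s) : ℕ) : ℤ)
    have b2 := Int.emod_nonneg (d.om (d.L ω')) hM.ne'
    have b3 := Int.emod_lt_of_pos (d.om (d.L ω')) hM
    rw [← h] at b1
    have h3 : |(d.om (d.L ω) : ℤ) - d.om (d.L ω')| ≤ ((2 ^ (d.X - s) : ℕ) : ℤ) := by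
      rw [abs_le]
      constructor <;> linarith
    have h4 : |(d.om (d.L ω) : ℝ) - d.om (d.L ω')| ≤ 2 ^ (d.X - s) := by exact_mod_cast h3
    rw [← sub_div, abs_div, abs_of_pos (by positivity : (0 : ℝ) < 2 ^ d.X),
      div_le_iff₀ (by positivity)]
    refine h4.trans (le_of_eq ?_)
    rw [← zpow_natCast (2 : ℝ) (d.X - s), ← zpow_natCast (2 : ℝ) d.X, ← zpow_add₀ (by norm_num)]
    congr 1
    push_cast [Nat.cast_sub hs.le]
    ring

theorem Ti_near {i : ℕ} {ω ω' : d.Om} (h : d.Ti i ω = d.Ti i ω') :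
    |d.th (d.T ω) - d.th (d.T ω')| ≤ (2 : ℝ) ^ (-(i : ℤ)) := by
  unfold SD.Ti at h
  have k1 : |(2 : ℝ) ^ i * d.th (d.T ω) - 2 ^ i * d.th (d.T ω')| < 1 :=
    Int.abs_sub_lt_one_of_floor_eq_floor h
  rw [← mul_sub, abs_mul, abs_of_pos (by positivity : (0 : ℝ) < 2 ^ i)] at k1
  rw [zpow_neg, zpow_natCast, ← one_div, le_div_iff₀ (by positivity), mul_comm]
  exact k1.le

end scale

theorem Pr_compl' {Ω : Type} [Fintype Ω] {p : Ω → ℝ} (hp : IsLaw p) (A B : Set Ω)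
    (h : ∀ ω, ω ∈ B ↔ ω ∉ A) : Pr p B = 1 - Pr p A := by
  classical
  rw [Pool.KAF.Pr_eq, Pool.KAF.Pr_eq]
  have h1 : ∑ ω, p ω = 1 := hp.sum_one
  rw [← h1, ← Finset.sum_sub_distrib]
  refine Finset.sum_congr rfl fun ω _ => ?_
  by_cases c : ω ∈ A
  · rw [if_pos c, if_neg (fun h' => (h ω).1 h' c)]
    ring
  · rw [if_neg c, if_pos ((h ω).2 c)]
    ring

section scale2

variable {d : SD}

theorem act_nonneg (hp : ∀ ω, 0 ≤ d.P ω) (Ka s : ℕ) (ω : d.Om) : 0 ≤ d.act Ka s ω :=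
  Pr_nonneg' (cond_nonneg hp _ _) _

theorem act_le_one (hp : IsLaw d.P) (Ka s : ℕ) {ω : d.Om} (hω : 0 < d.P ω) : d.act Ka s ω ≤ 1 :=
  Pr_le_one (isLaw_cond hp _ hω) _

theorem dead_nonneg (hp : ∀ ω, 0 ≤ d.P ω) (k' i : ℕ) (ω : d.Om) : 0 ≤ d.dead k' i ω :=
  Pr_nonneg' (cond_nonneg hp _ _) _

theorem dead_le_one (hp : IsLaw d.P) (k' i : ℕ) {ω : d.Om} (hω : 0 < d.P ω) : d.dead k' i ω ≤ 1 :=
  Pr_le_one (isLaw_cond hp _ hω) _

end scale2

/-- **One scale.** -/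
theorem one_scale (A k' Ka Kc : ℕ) (e D : ℝ) (he : 0 < e) (he1 : e ≤ 1) (hD : 128 / e + 12 ≤ D) :
    ∃ (δ : ℝ) (r₀ : ℕ), 0 < δ ∧ ∀ d : SD, d.OK A →
      mi d.P d.N (fun ω => d.V (d.L ω)) d.T ≤ δ * d.X →
      mi d.P d.T d.L (fun _ => ()) ≤ δ * d.X → ∀ i : ℕ,
      ∑ s ∈ Finset.range d.X, ∑ ω, d.P ω * ((if r₀ ≤ s + i ∧ s + i + r₀ ≤ d.X then
        wrow d.P d.N d.T d.X (d.X + 1 - (s + i)) Kc D ω else 0) *
          (d.act Ka s ω * (1 - d.dead k' i ω))) ≤ e * d.X := by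
  classical
  obtain ⟨δ', r₀, hδ', hcore⟩ := rok_core A 0 (k' + Ka) Kc 2 e D he he1 hD
  refine ⟨δ' / 2, r₀, by positivity, ?_⟩
  intro d hd hNV hTL i
  have hp := hd.law
  have hp0 := hp.nonneg
  have hX0 : (0 : ℝ) ≤ d.X := Nat.cast_nonneg _
  set b : d.Om → d.Lam × ℤ := fun ω => (d.L ω, d.Ti i ω) with hb
  set Q : d.Om × d.Om → ℝ := dbl d.P b with hQdef
  have hQm1 : Marg Q d.P (fun w => w.1) := dbl_fst hp0
  have hQm2 : Marg Q d.P (fun w => w.2) := dbl_snd hp0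
  have hQ0 : ∀ w, 0 ≤ Q w := fun w => dbl_nonneg hp0 w
  have hQ : IsLaw Q := ⟨hQ0, by rw [hQm1.sum]; exact hp.sum_one⟩
  have hw1 : ∀ ω, law Q (fun w => w.1) ω = d.P ω := law_of_marg hQm1
  have hw0 : ∀ ω, law Q (fun w => w.2) ω = d.P ω := law_of_marg hQm2
  have hQpos : ∀ w, 0 < Q w → 0 < d.P w.1 ∧ 0 < d.P w.2 ∧ b w.1 = b w.2 := fun w hw =>
    (glue_pos_iff hp0 hp0 w).mp hw
  have hLL : ∀ v, 0 < Q v → d.L v.2 = d.L v.1 := fun v hv =>
    (congrArg Prod.fst (hQpos v hv).2.2).symm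
  have hTT : ∀ v, 0 < Q v → d.Ti i v.2 = d.Ti i v.1 := fun v hv =>
    (congrArg Prod.snd (hQpos v hv).2.2).symm
  have hmi : mi Q (fun v => d.L v.1) (fun v => (d.T v.1, d.T v.2)) (fun _ => ()) ≤ δ' * d.X := by
    have h1 := Pool.OC.cost_pair hp d.L d.T (fun t => ⌊(2 : ℝ) ^ i * d.th t⌋) (δ' / 2 * d.X)
      (by rw [Pool.OC.mi_comm _ _ _ hp0]; exact hTL)
    refine le_trans h1 (le_of_eq ?_)
    ring
  set W : Set (d.Om × d.Om) :=
    {v | (2 : ℝ) ^ (-((i : ℤ) + k')) ≤ |d.th (d.T v.2) - d.th (d.T v.1)|} with hW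
  set Z : d.Tau → d.Tau → d.Lam → ℝ := fun t₁ t₀ l => (d.th t₀ - d.th t₁) * d.omR l with hZdef
  have hXX : (2 : ℝ) ^ d.X ≠ 0 := by positivity
  have key := hcore d.Om d.Lam d.Tau d.Nu d.P d.L d.T d.V d.N d.X Z hd.hN
    (fun ω ω' t₁ t₀ h1 h2 h3 => by
      simp only [hZdef, SD.omR, hd.hV ω ω' h1 h2 h3])
    (fun ω ω' h1 h2 h3 => by
      have e1 : (2 : ℝ) ^ d.X * Z (d.T ω) (d.T ω') (d.L ω) =
          (d.th (d.T ω') - d.th (d.T ω)) * d.om (d.L ω) := by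
        simp only [hZdef, SD.omR]
        field_simp
      rw [e1]
      exact hd.hZ ω ω' h1 h2 h3)
    (hNV.trans (by nlinarith [mul_nonneg hδ'.le hX0]))
    (d.Om × d.Om) Unit (d.Tau × d.Tau) Unit ℤ (fun _ => ℤ) Q (fun v => v.1) (fun v => v.2)
    (fun _ => ()) (fun v => (d.T v.1, d.T v.2)) (fun _ => ()) (fun s v => d.oc s v.1)
    (fun s v => d.oc (s + 1) v.1 % 2) {0, 1} (fun _ => (i : ℤ)) W 0 d.X hQ hw1 hw0 hLL
    (fun v v' _ _ h => by
      have h1 := Prod.ext_iff.mp h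
      exact Prod.ext rfl (Prod.ext h1.1 h1.2))
    hmi (fun _ _ _ _ _ => rfl)
    (by
      rw [CH_eq_zero hQ0 (fun _ _ _ _ _ => rfl)]
      positivity)
    (fun s _ v v' h1 h2 h => by
      have h3 : d.V (d.L v.1) = d.V (d.L v'.1) := (Prod.ext_iff.mp (Prod.ext_iff.mp h).2).2
      show d.oc s v.1 = d.oc s v'.1
      unfold SD.oc
      rw [hd.hV v.1 v'.1 (hQpos v h1).1 (hQpos v' h2).1 h3])
    (fun s v => by
      have h1 := Int.emod_two_eq_zero_or_one (d.oc (s + 1) v.1)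
      simp only [Finset.mem_insert, Finset.mem_singleton]
      exact h1)
    (by simp)
    (fun s _ v v' _ _ h => by
      have h1 := Prod.ext_iff.mp h
      exact oc_up h1.1 h1.2)
    (fun s _ v v' _ _ h => by
      have h1 : d.oc (s + 1) v.1 = d.oc (s + 1) v'.1 := h
      exact Prod.ext (oc_down h1) (congrArg (fun z : ℤ => z % 2) h1))
    (fun s _ v v' _ _ h => by
      have h1 := Prod.ext_iff.mp (Prod.ext_iff.mp h).1
      have h2 : d.T v.1 = d.T v'.1 := h1.1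
      have h3 : d.T v.2 = d.T v'.2 := h1.2
      refine Prod.ext rfl ?_
      show (v ∈ W) = (v' ∈ W)
      simp only [hW, Set.mem_ofPred_eq, h2, h3])
    (fun s v v' _ h1 h2 _ _ _ h => by
      have h3 : d.oc s v.1 = d.oc s v'.1 := h
      have h4 := oc_near h3
      have h5 := Ti_near (hTT v h1)
      have e1 : Z (d.T v.1) (d.T v.2) (d.L v.1) - Z (d.T v.1) (d.T v.2) (d.L v'.1) =
          (d.th (d.T v.2) - d.th (d.T v.1)) * (d.omR (d.L v.1) - d.omR (d.L v'.1)) := by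
        simp only [hZdef]
        ring
      rw [e1, abs_mul]
      calc |d.th (d.T v.2) - d.th (d.T v.1)| * |d.omR (d.L v.1) - d.omR (d.L v'.1)| ≤
          (2 : ℝ) ^ (-(i : ℤ)) * 2 ^ (-(s : ℤ)) := mul_le_mul h5 h4 (abs_nonneg _) (by positivity)
        _ = 2 ^ (((0 : ℕ) : ℤ) - ((s : ℤ) + i)) := by
          rw [← zpow_add₀ (by norm_num)]
          congr 1
          push_cast
          ring)
    le_rfl
  refine le_trans ?_ key
  rw [Nat.Ico_zero_eq_range]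
  refine Finset.sum_le_sum fun s _ => ?_
  -- the pairs
  set g : d.Om → ℝ := fun ω => (if r₀ ≤ s + i ∧ s + i + r₀ ≤ d.X then
        wrow d.P d.N d.T d.X (d.X + 1 - (s + i)) Kc D ω else 0) * d.act Ka s ω with hg
  have hg0 : ∀ ω, 0 ≤ g ω := fun ω => by
    refine mul_nonneg ?_ (act_nonneg hp0 _ _ _)
    split_ifs
    · exact wrow_nonneg _ _ _ _ _ _ _ _
    · exact le_rfl
  have e1 : ∑ ω, d.P ω * ((if r₀ ≤ s + i ∧ s + i + r₀ ≤ d.X then
        wrow d.P d.N d.T d.X (d.X + 1 - (s + i)) Kc D ω else 0) *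
          (d.act Ka s ω * (1 - d.dead k' i ω))) =
      ∑ w, Q w * (if (2 : ℝ) ^ (-((i : ℤ) + k')) ≤ |d.th (d.T w.2) - d.th (d.T w.1)| then
        g w.1 else 0) := by
    rw [sum_dbl (p := d.P) b g (fun ω v => (2 : ℝ) ^ (-((i : ℤ) + k')) ≤
      |d.th (d.T v) - d.th (d.T ω)|)]
    refine Finset.sum_congr rfl fun ω _ => ?_
    rcases (hp0 ω).eq_or_lt with h0 | h0
    · rw [← h0, zero_mul, zero_mul]
    · have h1 := Pr_compl' (isLaw_cond hp b h0) {v | |d.th (d.T v) - d.th (d.T ω)| <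
          (2 : ℝ) ^ (-((i : ℤ) + k'))} {v | (2 : ℝ) ^ (-((i : ℤ) + k')) ≤
          |d.th (d.T v) - d.th (d.T ω)|} (fun v => by
            simp only [Set.mem_ofPred_eq, not_lt])
      rw [h1]
      simp only [hg, SD.dead, hb]
      ring
  rw [e1]
  refine Finset.sum_le_sum fun w _ => ?_
  rcases (hQ0 w).eq_or_lt with h0 | h0
  · rw [← h0, zero_mul, zero_mul]
  refine mul_le_mul_of_nonneg_left ?_ h0.le
  by_cases c1 : (2 : ℝ) ^ (-((i : ℤ) + k')) ≤ |d.th (d.T w.2) - d.th (d.T w.1)|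
  swap
  · rw [if_neg c1]
    split_ifs
    · exact mul_nonneg (wrow_nonneg _ _ _ _ _ _ _ _) (Pr_nonneg' (cond_nonneg hQ0 _ _) _)
    · exact le_rfl
  rw [if_pos c1]
  by_cases c2 : r₀ ≤ s + i ∧ s + i + r₀ ≤ d.X
  swap
  · simp only [hg, if_neg c2, zero_mul]
    split_ifs
    · exact mul_nonneg (wrow_nonneg _ _ _ _ _ _ _ _) (Pr_nonneg' (cond_nonneg hQ0 _ _) _)
    · exact le_rfl
  have c3 : w ∈ W ∧ (r₀ : ℤ) ≤ (s : ℤ) + i ∧ (s : ℤ) + i + r₀ ≤ d.X :=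
    ⟨c1, by omega, by omega⟩
  rw [if_pos c3]
  simp only [hg, if_pos c2]
  have e2 : ((s : ℤ) + (i : ℤ)).toNat = s + i := by omega
  rw [e2]
  have e3 : d.X + 0 + 1 - (s + i) = d.X + 1 - (s + i) := by omega
  rw [e3]
  refine mul_le_mul_of_nonneg_left ?_ (wrow_nonneg _ _ _ _ _ _ _ _)
  have e4 : Pool.Agent.H49.Ent.cond Q (fun v => ((), (), d.oc s v.1)) ((), (), d.oc s w.1) =
      Pool.Agent.H49.Ent.cond Q (fun v => d.oc s v.1) (d.oc s w.1) :=
    cond_congr hQ0 (fun v _ => by simp)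
  rw [e4]
  unfold SD.act
  rw [← Pr_push hw1 (d.oc s) (d.oc s w.1)]
  refine Pr_mono_set (cond_nonneg hQ0 _ _) fun v _ hv => ?_
  have hv' : (2 : ℝ) ^ (-((s : ℤ) + Ka)) ≤ |d.omR (d.L v.1) - d.omR (d.L w.1)| := hv
  show (2 : ℝ) ^ (-((s : ℤ) + (i : ℤ) + ((k' + Ka : ℕ) : ℤ))) ≤
    |Z (d.T w.1) (d.T w.2) (d.L w.1) - Z (d.T w.1) (d.T w.2) (d.L v.1)|
  have e5 : Z (d.T w.1) (d.T w.2) (d.L w.1) - Z (d.T w.1) (d.T w.2) (d.L v.1) =
      (d.th (d.T w.2) - d.th (d.T w.1)) * -(d.omR (d.L v.1) - d.omR (d.L w.1)) := by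
    simp only [hZdef]
    ring
  rw [e5, abs_mul, abs_neg]
  calc (2 : ℝ) ^ (-((s : ℤ) + (i : ℤ) + ((k' + Ka : ℕ) : ℤ))) =
      2 ^ (-((i : ℤ) + k')) * 2 ^ (-((s : ℤ) + Ka)) := by
        rw [← zpow_add₀ (by norm_num)]
        congr 1
        push_cast
        ring
    _ ≤ _ := mul_le_mul c1 hv' (by positivity) (abs_nonneg _)

end Pool.KGS
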