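import Pool.Agent.H78.KG.Hit
import Pool.Agent.H68.KG.FewH

/-!
# Full rows from active velocities: the rows which are hit are full

A row `r` is hit by the pairs (scale `i` of the time, digit `r - i` of the velocity).
-/

set_option autoImplicit false

namespace Pool.KGS

open Finset Real
open Pool.Agent.H49.Ent Pool.Agent.H32.Dense Pool.STK Pool.KAF Pool.OC Pool.OC.RS

/-- One diagonal. -/
theorem diag_le (F : ℕ → ℕ → ℝ) (hF : ∀ r s, 0 ≤ F r s) (X i : ℕ) (R : Finset ℕ)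
    (hR : ∀ r ∈ R, r < X) :
    ∑ r ∈ R, (if i ≤ r then F r (r - i) else 0) ≤ ∑ s ∈ Finset.range X, F (s + i) s := by
  rw [← Finset.sum_filter]
  have h1 : ∑ r ∈ R.filter (fun r => i ≤ r), F r (r - i) =
      ∑ s ∈ (R.filter (fun r => i ≤ r)).image (fun r => r - i), F (s + i) s := by
    rw [Finset.sum_image]
    · refine Finset.sum_congr rfl fun r hr => ?_
      have h2 := (Finset.mem_filter.mp hr).2
      have h3 : r - i + i = r := by omega
      rw [h3]
    · intro a ha b hb hab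
      have h2 := (Finset.mem_filter.mp ha).2
      have h3 := (Finset.mem_filter.mp hb).2
      have h4 : a - i = b - i := hab
      omega
  rw [h1]
  refine Finset.sum_le_sum_of_subset_of_nonneg ?_ fun s _ _ => hF _ _
  intro s hs
  obtain ⟨r, hr, rfl⟩ := Finset.mem_image.mp hs
  have h2 := hR r (Finset.mem_filter.mp hr).1
  rw [Finset.mem_range]
  omega

open Classical in
/-- **The weights of the rows which are hit.** -/
theorem hit_sum (A k' Ka Kc : ℕ) (e D : ℝ) (he : 0 < e) (he1 : e ≤ 1) (hD : 128 / e + 12 ≤ D) :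
    ∃ (δ : ℝ) (r₀ : ℕ), 0 < δ ∧ ∀ d : SD, d.OK A →
      mi d.P d.N (fun ω => d.V (d.L ω)) d.T ≤ δ * d.X →
      mi d.P d.T d.L (fun _ => ()) ≤ δ * d.X → ∀ (I : Finset ℕ) (X₁ : ℕ) (E : Set d.Om) (c : ℝ),
      (∀ ω ∈ E, 0 < d.P ω → ∀ r, X₁ ≤ r → r < d.X → c * I.card ≤
        ∑ i ∈ I, if i ≤ r then d.act Ka (r - i) ω * (1 - d.dead k' i ω) else 0) →
      ∑ r ∈ (Finset.range d.X).filter (fun r => X₁ ≤ r ∧ r₀ ≤ r ∧ r + r₀ ≤ d.X),
        ∑ ω, (if ω ∈ E then d.P ω else 0) *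
          (wrow d.P d.N d.T d.X (d.X + 1 - r) Kc D ω * (c * I.card)) ≤ e * d.X * I.card := by
  obtain ⟨δ, r₀, hδ, hone⟩ := one_scale A k' Ka Kc e D he he1 hD
  refine ⟨δ, r₀, hδ, fun d hd h1 h2 I X₁ E c hhit => ?_⟩
  have hp := hd.law
  have hp0 := hp.nonneg
  set R := (Finset.range d.X).filter (fun r => X₁ ≤ r ∧ r₀ ≤ r ∧ r + r₀ ≤ d.X) with hR
  set w : ℕ → d.Om → ℝ := fun r ω => wrow d.P d.N d.T d.X (d.X + 1 - r) Kc D ω with hw
  have hw0 : ∀ r ω, 0 ≤ w r ω := fun r ω => wrow_nonneg _ _ _ _ _ _ _ _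
  -- sum over the scales
  have h3 : ∑ i ∈ I, ∑ s ∈ Finset.range d.X, ∑ ω, d.P ω *
      ((if r₀ ≤ s + i ∧ s + i + r₀ ≤ d.X then w (s + i) ω else 0) *
        (d.act Ka s ω * (1 - d.dead k' i ω))) ≤ e * d.X * I.card := by
    refine (Finset.sum_le_sum fun i _ => hone d hd h1 h2 i).trans (le_of_eq ?_)
    rw [Finset.sum_const, nsmul_eq_mul]
    ring
  refine le_trans ?_ h3
  have hnn : ∀ i s ω, 0 ≤ d.P ω * ((d.act Ka s ω * (1 - d.dead k' i ω))) := by
    intro i s ω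
    rcases (hp0 ω).eq_or_lt with h0 | h0
    · rw [← h0, zero_mul]
    · exact mul_nonneg h0.le (mul_nonneg (act_nonneg hp0 _ _ _)
        (sub_nonneg.mpr (dead_le_one hp _ _ h0)))
  -- one sample
  have h4 : ∀ i ∈ I, ∑ r ∈ R, (if i ≤ r then ∑ ω, (w r ω * (d.P ω *
      (d.act Ka (r - i) ω * (1 - d.dead k' i ω)))) else 0) ≤
      ∑ s ∈ Finset.range d.X, ∑ ω, d.P ω *
      ((if r₀ ≤ s + i ∧ s + i + r₀ ≤ d.X then w (s + i) ω else 0) *
        (d.act Ka s ω * (1 - d.dead k' i ω))) := by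
    intro i _
    have h5 := diag_le (fun r s => ∑ ω, ((if r₀ ≤ r ∧ r + r₀ ≤ d.X then w r ω else 0) *
      (d.P ω * (d.act Ka s ω * (1 - d.dead k' i ω))))) (fun r s =>
        Finset.sum_nonneg fun ω _ => mul_nonneg (by
          split_ifs
          · exact hw0 _ _
          · exact le_rfl) (hnn i s ω)) d.X i R (fun r hr => by
            rw [hR, Finset.mem_filter, Finset.mem_range] at hr
            exact hr.1)
    refine le_trans (le_of_eq ?_) (h5.trans (le_of_eq ?_))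
    · refine Finset.sum_congr rfl fun r hr => ?_
      rw [hR, Finset.mem_filter] at hr
      simp only [if_pos hr.2.2]
    · refine Finset.sum_congr rfl fun s _ => Finset.sum_congr rfl fun ω _ => ?_
      ring
  refine le_trans ?_ (Finset.sum_le_sum h4)
  rw [Finset.sum_comm (s := I) (t := R)]
  refine Finset.sum_le_sum fun r hr => ?_
  rw [hR, Finset.mem_filter, Finset.mem_range] at hr
  have e1 : ∑ i ∈ I, (if i ≤ r then ∑ ω, (w r ω * (d.P ω *
      (d.act Ka (r - i) ω * (1 - d.dead k' i ω)))) else 0) =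
      ∑ ω, w r ω * (∑ i ∈ I, if i ≤ r then d.P ω *
        (d.act Ka (r - i) ω * (1 - d.dead k' i ω)) else 0) := by
    simp only [Finset.mul_sum]
    rw [Finset.sum_comm]
    refine Finset.sum_congr rfl fun i _ => ?_
    split_ifs
    · rfl
    · simp
  rw [e1]
  refine Finset.sum_le_sum fun ω _ => ?_
  have h6 : ∀ i ∈ I, 0 ≤ (if i ≤ r then d.P ω *
        (d.act Ka (r - i) ω * (1 - d.dead k' i ω)) else 0) := by
    intro i _
    split_ifs
    · exact hnn _ _ _
    · exact le_rfl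
  by_cases c1 : ω ∈ E
  swap
  · rw [if_neg c1, zero_mul]
    exact mul_nonneg (hw0 _ _) (Finset.sum_nonneg h6)
  rw [if_pos c1]
  rcases (hp0 ω).eq_or_lt with h0 | h0
  · rw [← h0, zero_mul]
    exact mul_nonneg (hw0 _ _) (Finset.sum_nonneg fun i _ => by simp)
  have h7 := hhit ω c1 h0 r hr.2.1 hr.1
  have e2 : ∑ i ∈ I, (if i ≤ r then d.P ω * (d.act Ka (r - i) ω * (1 - d.dead k' i ω)) else 0) =
      d.P ω * ∑ i ∈ I, (if i ≤ r then d.act Ka (r - i) ω * (1 - d.dead k' i ω) else 0) := by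
    rw [Finset.mul_sum]
    refine Finset.sum_congr rfl fun i _ => ?_
    split_ifs
    · rfl
    · simp
  rw [e2]
  have h8 := mul_le_mul_of_nonneg_left (mul_le_mul_of_nonneg_left h7 h0.le) (hw0 r ω)
  refine le_trans (le_of_eq ?_) h8
  simp only [hw]
  ring

open Classical in
/-- **Rows which are hit are full.** `I` are the scales of the time, `E` the typical samples. -/
theorem ksat (A k' Ka : ℕ) (c ε : ℝ) (hc : 0 < c) (hε : 0 < ε) :
    ∃ (δ : ℝ) (X₀ : ℕ), 0 < δ ∧ ∀ d : SD, d.OK A → X₀ ≤ d.X →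
      mi d.P d.N (fun ω => d.V (d.L ω)) d.T ≤ δ * d.X →
      mi d.P d.T d.L (fun _ => ()) ≤ δ * d.X → ∀ (I : Finset ℕ) (X₁ : ℕ) (E : Set d.Om),
      I.Nonempty → X₁ ≤ d.X →
      (∀ ω ∈ E, 0 < d.P ω → ∀ r, X₁ ≤ r → r < d.X → c * I.card ≤
        ∑ i ∈ I, if i ≤ r then d.act Ka (r - i) ω * (1 - d.dead k' i ω) else 0) →
      (1 - ε - Pr d.P Eᶜ) * d.X * Real.log 2 - X₁ * Real.log 2 ≤ CH d.P d.N d.T := by
  have hl2 : 0 < Real.log 2 := Real.log_pos (by norm_num)
  obtain ⟨u, hu⟩ : ∃ u, u = min (1 / 2) (ε / 8) := ⟨_, rfl⟩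
  have hu0 : 0 < u := by
    rw [hu]
    exact lt_min (by norm_num) (by positivity)
  have hu1 : u ≤ ε / 8 := by
    rw [hu]
    exact min_le_right _ _
  have hu2 : u ≤ 1 / 2 := by
    rw [hu]
    exact min_le_left _ _
  obtain ⟨e, he⟩ : ∃ e, e = min 1 (c * u * (ε / 8)) := ⟨_, rfl⟩
  have he0 : 0 < e := by
    rw [he]
    exact lt_min one_pos (by positivity)
  have he1 : e ≤ 1 := by
    rw [he]
    exact min_le_left _ _
  have he2 : e ≤ c * u * (ε / 8) := by
    rw [he]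
    exact min_le_right _ _
  obtain ⟨D, hD⟩ : ∃ D, D = 128 / e + 12 := ⟨_, rfl⟩
  have hD0 : 0 < D := by
    rw [hD]
    positivity
  obtain ⟨Kc, hKc⟩ := exists_nat_ge (D / (u * Real.log 2))
  have hKD : D ≤ u * (Kc * Real.log 2) := by
    rw [div_le_iff₀ (by positivity)] at hKc
    linarith only [hKc]
  have hK0 : (0 : ℝ) < Kc := by
    have h1 : 0 < D / (u * Real.log 2) := by positivity
    linarith only [hKc, h1]
  obtain ⟨δ, r₀, hδ, hsum⟩ := hit_sum A k' Ka Kc e D he0 he1 hD.ge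
  obtain ⟨X₀, hX₀⟩ := exists_nat_ge ((2 * (r₀ : ℝ) + 2) / (ε / 8))
  refine ⟨δ, X₀, hδ, fun d hd hX h1 h2 I X₁ E hI hX1 hhit => ?_⟩
  have hp := hd.law
  have hp0 := hp.nonneg
  have hXR : 2 * (r₀ : ℝ) + 2 ≤ ε / 8 * d.X := by
    rw [div_le_iff₀ (by positivity)] at hX₀
    have h3 : (X₀ : ℝ) ≤ d.X := by exact_mod_cast hX
    nlinarith only [hX₀, hε, h3]
  have hI0 : (0 : ℝ) < I.card := by exact_mod_cast Finset.card_pos.mpr hI
  have hs := hsum d hd h1 h2 I X₁ E c hhit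
  set R := (Finset.range d.X).filter (fun r => X₁ ≤ r ∧ r₀ ≤ r ∧ r + r₀ ≤ d.X) with hR
  set w : ℕ → d.Om → ℝ := fun r ω => wrow d.P d.N d.T d.X (d.X + 1 - r) Kc D ω with hw
  have hw0 : ∀ r ω, 0 ≤ w r ω := fun r ω => wrow_nonneg _ _ _ _ _ _ _ _
  -- the weights on the event
  have h3 : ∑ r ∈ R, ∑ ω, (if ω ∈ E then d.P ω else 0) * w r ω ≤ e / c * d.X := by
    have e1 : ∑ r ∈ R, ∑ ω, (if ω ∈ E then d.P ω else 0) *
          (wrow d.P d.N d.T d.X (d.X + 1 - r) Kc D ω * (c * I.card)) =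
        (∑ r ∈ R, ∑ ω, (if ω ∈ E then d.P ω else 0) * w r ω) * (c * I.card) := by
      rw [Finset.sum_mul]
      refine Finset.sum_congr rfl fun r _ => ?_
      rw [Finset.sum_mul]
      refine Finset.sum_congr rfl fun ω _ => ?_
      simp only [hw]
      ring
    rw [e1] at hs
    have h4 : (∑ r ∈ R, ∑ ω, (if ω ∈ E then d.P ω else 0) * w r ω) * (c * I.card) ≤
        e / c * d.X * (c * I.card) := by
      refine hs.trans (le_of_eq ?_)
      field_simp
    exact le_of_mul_le_mul_right h4 (by positivity)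
  -- heavy rows
  have h5 : ∀ r, r < d.X → r ∈ R → Pr d.P {ω | r ∈ RS.Jw d.P d.N d.T d.X 0 Kc D u ω} ≤
      (∑ ω, (if ω ∈ E then d.P ω else 0) * w r ω) / u + Pr d.P Eᶜ := by
    intro r _ _
    rw [Pool.KAF.Pr_eq, Pool.KAF.Pr_eq, Finset.sum_div, ← Finset.sum_add_distrib]
    refine Finset.sum_le_sum fun ω _ => ?_
    by_cases c1 : ω ∈ {ω | r ∈ RS.Jw d.P d.N d.T d.X 0 Kc D u ω}
    · rw [if_pos c1]
      by_cases c2 : ω ∈ E
      · rw [if_pos c2, if_neg (fun h => h c2), add_zero, le_div_iff₀ hu0]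
        have c3 : u ≤ wrow d.P d.N d.T d.X (d.X + 0 + 1 - r) Kc D ω := c1.2
        rw [Nat.add_zero] at c3
        exact mul_le_mul_of_nonneg_left c3 (hp0 ω)
      · rw [if_neg c2, zero_mul, zero_div, zero_add, if_pos (show ω ∈ Eᶜ from c2)]
    · rw [if_neg c1]
      refine add_nonneg (div_nonneg (mul_nonneg ?_ (hw0 _ _)) hu0.le) ?_
      · split_ifs
        · exact hp0 ω
        · exact le_rfl
      · split_ifs
        · exact hp0 ω
        · exact le_rfl
  have hPc0 : 0 ≤ Pr d.P Eᶜ := Pr_nonneg' hp0 _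
  have h6 : ∑ r ∈ Finset.Ico (d.X - (d.X - X₁)) d.X,
      Pr d.P {ω | r ∈ RS.Jw d.P d.N d.T d.X 0 Kc D u ω} ≤
      (e / c * d.X) / u + Pr d.P Eᶜ * d.X + 2 * r₀ := by
    have e1 : d.X - (d.X - X₁) = X₁ := by omega
    rw [e1]
    have h7 : ∀ r ∈ Finset.Ico X₁ d.X, Pr d.P {ω | r ∈ RS.Jw d.P d.N d.T d.X 0 Kc D u ω} ≤
        (if r ∈ R then (∑ ω, (if ω ∈ E then d.P ω else 0) * w r ω) / u else 0) + Pr d.P Eᶜ +
          (if r < r₀ then 1 else 0) + (if d.X < r + r₀ then 1 else 0) := by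
      intro r hr
      rw [Finset.mem_Ico] at hr
      have hP1 := Pr_le_one hp {ω | r ∈ RS.Jw d.P d.N d.T d.X 0 Kc D u ω}
      have i1 : (0 : ℝ) ≤ (if r < r₀ then 1 else 0) := by split_ifs <;> norm_num
      have i2 : (0 : ℝ) ≤ (if d.X < r + r₀ then 1 else 0) := by split_ifs <;> norm_num
      by_cases c1 : r ∈ R
      · rw [if_pos c1]
        have := h5 r hr.2 c1
        linarith only [i1, i2, this]
      · rw [if_neg c1]
        have c2 : r < r₀ ∨ d.X < r + r₀ := by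
          by_contra hcon
          push Not at hcon
          refine c1 ?_
          rw [hR, Finset.mem_filter, Finset.mem_range]
          exact ⟨hr.2, hr.1, hcon.1, hcon.2⟩
        rcases c2 with c2 | c2
        · rw [if_pos c2]
          linarith only [hPc0, hP1, i2]
        · rw [if_pos c2]
          linarith only [hPc0, hP1, i1]
    refine (Finset.sum_le_sum h7).trans ?_
    rw [Finset.sum_add_distrib, Finset.sum_add_distrib, Finset.sum_add_distrib]
    have j1 : ∑ r ∈ Finset.Ico X₁ d.X,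
        (if r ∈ R then (∑ ω, (if ω ∈ E then d.P ω else 0) * w r ω) / u else 0) ≤
        (e / c * d.X) / u := by
      rw [← Finset.sum_filter, ← Finset.sum_div]
      refine div_le_div_of_nonneg_right (le_trans (le_of_eq ?_) h3) hu0.le
      refine Finset.sum_congr ?_ fun _ _ => rfl
      ext r
      rw [Finset.mem_filter, hR, Finset.mem_filter, Finset.mem_Ico, Finset.mem_range]
      tauto
    have j2 : ∑ r ∈ Finset.Ico X₁ d.X, Pr d.P Eᶜ ≤ Pr d.P Eᶜ * d.X := by
      rw [Finset.sum_const, Nat.card_Ico, nsmul_eq_mul, mul_comm]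
      refine mul_le_mul_of_nonneg_left ?_ hPc0
      exact_mod_cast Nat.sub_le _ _
    have j3 : ∑ r ∈ Finset.Ico X₁ d.X, (if r < r₀ then (1 : ℝ) else 0) ≤ r₀ := by
      rw [← Finset.sum_filter, Finset.sum_const, nsmul_eq_mul, mul_one]
      have : ((Finset.Ico X₁ d.X).filter (fun r => r < r₀)).card ≤ (Finset.range r₀).card :=
        Finset.card_le_card fun r hr => by
          rw [Finset.mem_range]
          exact (Finset.mem_filter.mp hr).2
      rw [Finset.card_range] at this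
      exact_mod_cast this
    have j4 : ∑ r ∈ Finset.Ico X₁ d.X, (if d.X < r + r₀ then (1 : ℝ) else 0) ≤ r₀ := by
      rw [← Finset.sum_filter, Finset.sum_const, nsmul_eq_mul, mul_one]
      have : ((Finset.Ico X₁ d.X).filter (fun r => d.X < r + r₀)).card ≤
          (Finset.Ico (d.X - r₀) d.X).card :=
        Finset.card_le_card fun r hr => by
          have h8 := Finset.mem_filter.mp hr
          have h9 := Finset.mem_Ico.mp h8.1
          have h10 : d.X < r + r₀ := h8.2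
          rw [Finset.mem_Ico]
          omega
      rw [Nat.card_Ico] at this
      have h11 : d.X - (d.X - r₀) ≤ r₀ := by omega
      exact_mod_cast this.trans h11
    linarith only [j1, j2, j3, j4]
  -- the entropy
  have key := Pool.KG.few_heavy hp d.N d.T d.X 0 Kc (d.X - X₁) D u (Nat.sub_le _ _) hu0.le
    (by nlinarith only [hKD, hK0, hl2, hu0, hu2, hD0, mul_pos hK0 hl2])
  have hcast : ((d.X - X₁ : ℕ) : ℝ) = (d.X : ℝ) - X₁ := by
    push_cast [Nat.cast_sub hX1]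
    ring
  rw [hcast] at key
  have hX0 : (0 : ℝ) ≤ d.X := Nat.cast_nonneg _
  have hX10 : (0 : ℝ) ≤ X₁ := Nat.cast_nonneg _
  have h8 : (e / c * d.X) / u ≤ ε / 8 * d.X := by
    rw [div_le_iff₀ hu0]
    have h9 : e / c ≤ u * (ε / 8) := by
      rw [div_le_iff₀ hc]
      linarith only [he2]
    have := mul_le_mul_of_nonneg_right h9 hX0
    linarith only [this]
  have hCH0 := CH_nonneg hp0 d.N d.T
  obtain ⟨B, hB⟩ : ∃ B : ℝ, B = (1 - 3 * (ε / 8) - Pr d.P Eᶜ) * d.X - X₁ := ⟨_, rfl⟩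
  have hBle : B ≤ ((d.X : ℝ) - X₁) * (1 - u) -
      ∑ r ∈ Finset.Ico (d.X - (d.X - X₁)) d.X,
        Pr d.P {ω | r ∈ RS.Jw d.P d.N d.T d.X 0 Kc D u ω} := by
    have h9 : ((d.X : ℝ) - X₁) * (1 - u) = d.X - X₁ - u * d.X + u * X₁ := by ring
    have h10 : u * d.X ≤ ε / 8 * d.X := mul_le_mul_of_nonneg_right hu1 hX0
    have h11 : 0 ≤ u * X₁ := mul_nonneg hu0.le hX10
    rw [hB, h9]
    linarith only [hu0, hu2, hXR, h6, h8, h10, h11]
  have hgoal : (1 - ε - Pr d.P Eᶜ) * d.X - X₁ ≤ B - ε / 8 * d.X - 2 := by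
    rw [hB]
    have h9 : 0 ≤ ε / 8 * d.X := mul_nonneg (by positivity) hX0
    have h10 : (0 : ℝ) ≤ r₀ := Nat.cast_nonneg _
    nlinarith only [hu0, hu2, hXR]
  have e3 : (1 - ε - Pr d.P Eᶜ) * d.X * Real.log 2 - X₁ * Real.log 2 =
      ((1 - ε - Pr d.P Eᶜ) * d.X - X₁) * Real.log 2 := by ring
  rw [e3]
  rcases le_or_gt B 0 with hB0 | hB0
  · have h9 : (1 - ε - Pr d.P Eᶜ) * d.X - X₁ ≤ 0 := by
      have h10 : 0 ≤ ε / 8 * d.X := mul_nonneg (by positivity) hX0
      linarith only [hu0, hu2, hXR, hB, hB0]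
    exact (mul_nonpos_of_nonpos_of_nonneg h9 hl2.le).trans hCH0
  · have h9 : (1 - u) * (Kc * Real.log 2) ≤ Kc * Real.log 2 - D := by linarith only [hKD]
    have h10 : (1 - u) * (Kc * Real.log 2) * B ≤ Kc * (CH d.P d.N d.T + 2 * Real.log 2) := by
      refine (mul_le_mul_of_nonneg_right h9 hB0.le).trans ((mul_le_mul_of_nonneg_left hBle ?_).trans
        key)
      have : 0 ≤ (1 - u) * (Kc * Real.log 2) := mul_nonneg (by linarith only [hu0, hu2]) (by positivity)
      linarith only [hKD, this]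
    have h11 : (1 - u) * B * Real.log 2 ≤ CH d.P d.N d.T + 2 * Real.log 2 := by
      have h12 : Kc * ((1 - u) * B * Real.log 2) ≤ Kc * (CH d.P d.N d.T + 2 * Real.log 2) := by
        refine le_trans (le_of_eq ?_) h10
        ring
      exact le_of_mul_le_mul_left h12 hK0
    have h12 : B - ε / 8 * d.X ≤ (1 - u) * B := by
      have h13 : B ≤ d.X := by
        rw [hB]
        have h14 : 0 ≤ (3 * (ε / 8) + Pr d.P Eᶜ) * d.X := by positivity
        nlinarith only [h14]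
      have h15 : u * B ≤ ε / 8 * d.X := mul_le_mul hu1 h13 hB0.le (by positivity)
      linarith only [h15]
    have h13 := mul_le_mul_of_nonneg_right h12 hl2.le
    have h14 := mul_le_mul_of_nonneg_right hgoal hl2.le
    linarith only [h11, h13, h14]

end Pool.KGS
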