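import Pool.Agent.H78.KG.Ksg
import Pool.Agent.H20.OCM.RunA

/-!
# Full rows from active velocities: the two forms used

`ksg`: short scales of the time, activity in every interval of digits. `ksat_early`: one block of
velocities at the beginning, all scales of the time, activity given as entropy on all large events.
-/

set_option autoImplicit false

namespace Pool.KGS

open Finset Real
open Pool.Agent.H49.Ent Pool.Agent.H32.Dense Pool.STK Pool.KAF Pool.OC Pool.OC.RS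

theorem Pr_union_le {Ω : Type} [Fintype Ω] {p : Ω → ℝ} (hp : ∀ ω, 0 ≤ p ω) (A B C : Set Ω)
    (h : ∀ ω, ω ∈ A → ω ∈ B ∨ ω ∈ C) : Pr p A ≤ Pr p B + Pr p C := by
  classical
  rw [Pool.KAF.Pr_eq, Pool.KAF.Pr_eq, Pool.KAF.Pr_eq, ← Finset.sum_add_distrib]
  refine Finset.sum_le_sum fun ω _ => ?_
  have h0 := hp ω
  by_cases c : ω ∈ A
  · rw [if_pos c]
    rcases h ω c with h1 | h1
    · rw [if_pos h1]
      split_ifs <;> linarith
    · rw [if_pos h1]
      split_ifs <;> linarith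
  · rw [if_neg c]
    split_ifs <;> linarith

/-- A reindexing. -/
theorem sum_diag (f : ℕ → ℝ) {X₁ r : ℕ} (h : X₁ ≤ r) :
    ∑ i ∈ Finset.range X₁, f (r - i) = ∑ s ∈ Finset.Ioc (r - X₁) r, f s := by
  refine Finset.sum_bij' (fun i _ => r - i) (fun s _ => r - s) ?_ ?_ ?_ ?_ ?_
  · intro i hi
    rw [Finset.mem_range] at hi
    rw [Finset.mem_Ioc]
    omega
  · intro s hs
    rw [Finset.mem_Ioc] at hs
    rw [Finset.mem_range]
    omega
  · intro i hi
    rw [Finset.mem_range] at hi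
    omega
  · intro s hs
    rw [Finset.mem_Ioc] at hs
    omega
  · intro i _
    rfl

/-- **K-live times, activity in every interval of digits.** -/
theorem ksg (A k' Ka : ℕ) (ca ε : ℝ) (hca : 0 < ca) (hε : 0 < ε) :
    ∃ (δ : ℝ) (X₀ : ℕ), 0 < δ ∧ ∀ d : SD, d.OK A → X₀ ≤ d.X →
      mi d.P d.N (fun ω => d.V (d.L ω)) d.T ≤ δ * d.X →
      mi d.P d.T d.L (fun _ => ()) ≤ δ * d.X → ∀ X₁ : ℕ, 1 ≤ X₁ → X₁ ≤ d.X →
      Pr d.P {ω | ∃ r, X₁ ≤ r ∧ r < d.X ∧
        ∑ s ∈ Finset.Ioc (r - X₁) r, d.act Ka s ω < ca * X₁} ≤ ε / 4 →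
      Pr d.P {ω | ca / 2 * X₁ < ∑ i ∈ Finset.range X₁, d.dead k' i ω} ≤ ε / 4 →
      (1 - ε) * d.X * Real.log 2 - X₁ * Real.log 2 ≤ CH d.P d.N d.T := by
  obtain ⟨δ, X₀, hδ, hk⟩ := ksat A k' Ka (ca / 2) (ε / 2) (by positivity) (by positivity)
  refine ⟨δ, X₀, hδ, fun d hd hX h1 h2 X₁ hX1 hX1X hact hdead => ?_⟩
  have hp := hd.law
  have hp0 := hp.nonneg
  obtain ⟨B₁, hB₁⟩ : ∃ B₁ : Set d.Om, B₁ = {ω | ∃ r, X₁ ≤ r ∧ r < d.X ∧
        ∑ s ∈ Finset.Ioc (r - X₁) r, d.act Ka s ω < ca * X₁} := ⟨_, rfl⟩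
  obtain ⟨B₂, hB₂⟩ : ∃ B₂ : Set d.Om, B₂ = {ω | ca / 2 * X₁ <
      ∑ i ∈ Finset.range X₁, d.dead k' i ω} := ⟨_, rfl⟩
  rw [← hB₁] at hact
  rw [← hB₂] at hdead
  have key := hk d hd hX h1 h2 (Finset.range X₁) X₁ {ω | ω ∉ B₁ ∧ ω ∉ B₂}
    ⟨0, Finset.mem_range.mpr (by omega)⟩ hX1X ?_
  · have h3 : Pr d.P {ω | ω ∉ B₁ ∧ ω ∉ B₂}ᶜ ≤ ε / 2 := by
      have h4 := Pr_union_le hp0 {ω | ω ∉ B₁ ∧ ω ∉ B₂}ᶜ B₁ B₂ (fun ω hω => by
        by_contra hcon
        rw [not_or] at hcon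
        exact hω hcon)
      linarith
    have hl2 : 0 < Real.log 2 := Real.log_pos (by norm_num)
    have h5 : (0 : ℝ) ≤ d.X * Real.log 2 := by positivity
    have h6 := mul_le_mul_of_nonneg_right h3 h5
    refine le_trans ?_ key
    linarith
  · intro ω hω hpos r hr hrX
    have hω1 : ω ∉ B₁ := hω.1
    have hω2 : ω ∉ B₂ := hω.2
    have h3 : ca * X₁ ≤ ∑ s ∈ Finset.Ioc (r - X₁) r, d.act Ka s ω := by
      by_contra hcon
      rw [hB₁] at hω1
      exact hω1 ⟨r, hr, hrX, not_le.mp hcon⟩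
    have h4 : ∑ i ∈ Finset.range X₁, d.dead k' i ω ≤ ca / 2 * X₁ := by
      by_contra hcon
      rw [hB₂] at hω2
      exact hω2 (not_le.mp hcon)
    rw [← sum_diag (fun s => d.act Ka s ω) hr] at h3
    have h5 : ∀ i ∈ Finset.range X₁, d.act Ka (r - i) ω - d.dead k' i ω ≤
        (if i ≤ r then d.act Ka (r - i) ω * (1 - d.dead k' i ω) else 0) := by
      intro i hi
      rw [Finset.mem_range] at hi
      rw [if_pos (by omega)]
      have a1 := act_le_one hp Ka (r - i) hpos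
      have b0 := dead_nonneg (d := d) hp0 k' i ω
      have h6 : d.act Ka (r - i) ω * d.dead k' i ω ≤ 1 * d.dead k' i ω :=
        mul_le_mul_of_nonneg_right a1 b0
      linarith
    have h6 := Finset.sum_le_sum h5
    rw [Finset.sum_sub_distrib] at h6
    rw [Finset.card_range]
    refine le_trans ?_ h6
    linarith

/-! ### One early block of velocities -/

theorem floor_eq_oc (d : SD) {j : ℕ} (hj : j ≤ d.X) (ω : d.Om) :
    ⌊(2 : ℝ) ^ j * d.omR (d.L ω)⌋ = d.oc j ω := by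
  unfold SD.omR SD.oc
  have h1 := Pool.OC.RS.floor_err (d.om (d.L ω)) (d.X - j)
  have h2 : (2 : ℝ) ^ j * ((d.om (d.L ω) : ℝ) / 2 ^ d.X) =
      (d.om (d.L ω) : ℝ) / 2 ^ (d.X - j) := by
    have h3 : (2 : ℝ) ^ d.X = 2 ^ j * 2 ^ (d.X - j) := by
      rw [← pow_add]
      congr 1
      omega
    rw [h3]
    field_simp
  rw [h2, Int.floor_eq_iff]
  exact ⟨h1.2, by linarith [h1.1]⟩

/-- Mean of the probabilities of the near pairs. -/
theorem sum_dead (d : SD) (k' i : ℕ) :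
    ∑ ω, d.P ω * d.dead k' i ω = Pr (d.Qp i) {w | |d.th (d.T w.2) - d.th (d.T w.1)| <
      (2 : ℝ) ^ (-((i : ℤ) + k'))} := by
  classical
  have h := sum_dbl (p := d.P) (fun ω => (d.L ω, d.Ti i ω)) (fun _ => (1 : ℝ))
    (fun ω v => |d.th (d.T v) - d.th (d.T ω)| < (2 : ℝ) ^ (-((i : ℤ) + k')))
  rw [Pool.KAF.Pr_eq]
  simp only [one_mul] at h
  unfold SD.dead SD.Qp
  rw [← h]
  refine Finset.sum_congr rfl fun w _ => ?_
  by_cases c : |d.th (d.T w.2) - d.th (d.T w.1)| < (2 : ℝ) ^ (-((i : ℤ) + k'))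
  · rw [if_pos c, if_pos (show w ∈ {w : d.Om × d.Om | |d.th (d.T w.2) - d.th (d.T w.1)| <
      (2 : ℝ) ^ (-((i : ℤ) + k'))} from c), mul_one]
  · rw [if_neg c, if_neg (show w ∉ {w : d.Om × d.Om | |d.th (d.T w.2) - d.th (d.T w.1)| <
      (2 : ℝ) ^ (-((i : ℤ) + k'))} from c), mul_zero]

/-- **K-live times, one early block of velocities.** -/
theorem ksat_early (A : ℕ) (ca ε : ℝ) (hca : 0 < ca) (hε : 0 < ε) :
    ∃ κ e₀ π₀ : ℝ, 0 < κ ∧ κ ≤ 1 ∧ 0 < e₀ ∧ 0 < π₀ ∧ ∀ k' : ℕ, ∃ (ι : ℝ) (X₀ : ℕ), 0 < ι ∧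
      ∀ d : SD, d.OK A → X₀ ≤ d.X →
        mi d.P d.N (fun ω => d.V (d.L ω)) d.T ≤ ι * d.X →
        mi d.P d.T d.L (fun _ => ()) ≤ ι * d.X →
        ∑ i ∈ Finset.range d.X, Pr (d.Qp i) {w | |d.th (d.T w.2) - d.th (d.T w.1)| <
          (2 : ℝ) ^ (-((i : ℤ) + k'))} ≤ e₀ * d.X →
        (∀ E : Set d.Om, π₀ ≤ Pr d.P E → ca * ⌊κ * d.X⌋₊ * Real.log 2 ≤
          CH (cond d.P (fun ω => ω ∈ E) True) (fun ω => ⌊(2 : ℝ) ^ ⌊κ * d.X⌋₊ * d.omR (d.L ω)⌋)
            (fun ω => ⌊d.omR (d.L ω)⌋)) →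
        (1 - ε) * d.X * Real.log 2 ≤ CH d.P d.N d.T := by
  classical
  obtain ⟨K, h₀, hK1, hrun⟩ := Pool.OCM.RN20.runs ca hca 0
  obtain ⟨κ, hκ⟩ : ∃ κ, κ = min 1 (ε / 4) := ⟨_, rfl⟩
  have hκ0 : 0 < κ := by
    rw [hκ]
    exact lt_min one_pos (by positivity)
  have hκ1 : κ ≤ 1 := by
    rw [hκ]
    exact min_le_left _ _
  have hκε : κ ≤ ε / 4 := by
    rw [hκ]
    exact min_le_right _ _
  refine ⟨κ, ca * κ / 16 * (ε / 8), ε / 8, hκ0, hκ1, by positivity, by positivity, fun k' => ?_⟩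
  obtain ⟨δ, X₀, hδ, hk⟩ := ksat A k' K (ca * κ / 16) (ε / 4) (by positivity) (by positivity)
  obtain ⟨X₁, hX₁⟩ := exists_nat_ge ((h₀ + 2 : ℝ) / κ)
  refine ⟨δ, max (max X₀ X₁) 1, hδ, fun d hd hX h1 h2 hTB hact => ?_⟩
  have hp := hd.law
  have hp0 := hp.nonneg
  have hXX : X₀ ≤ d.X := (le_max_left _ _).trans ((le_max_left _ _).trans hX)
  have hXX1 : X₁ ≤ d.X := (le_max_right _ _).trans ((le_max_left _ _).trans hX)
  have hX1 : 1 ≤ d.X := (le_max_right _ _).trans hX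
  have hX0' : (0 : ℝ) < d.X := by exact_mod_cast hX1
  obtain ⟨h, hh⟩ : ∃ h, h = ⌊κ * d.X⌋₊ := ⟨_, rfl⟩
  rw [← hh] at hact
  have hκX : (h₀ : ℝ) + 2 ≤ κ * d.X := by
    rw [div_le_iff₀ hκ0] at hX₁
    have h3 : (X₁ : ℝ) ≤ d.X := by exact_mod_cast hXX1
    have h4 := mul_le_mul_of_nonneg_right h3 hκ0.le
    linarith
  have hh1 : (h : ℝ) ≤ κ * d.X := by
    rw [hh]
    exact Nat.floor_le (by positivity)
  have hh2 : κ * d.X < h + 1 := by
    rw [hh]
    exact Nat.lt_floor_add_one _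
  have hh3 : h₀ ≤ h := by
    have : (h₀ : ℝ) < h := by linarith
    exact_mod_cast this.le
  have hh4 : κ * d.X / 2 ≤ h := by linarith
  have hhX : h ≤ d.X := by
    have h3 : (h : ℝ) ≤ d.X := hh1.trans (by nlinarith)
    exact_mod_cast h3
  -- the samples with few active digits
  obtain ⟨x, hx⟩ : ∃ x : d.Om → ℝ, x = fun ω => d.omR (d.L ω) := ⟨_, rfl⟩
  obtain ⟨B₁, hB₁⟩ : ∃ B₁ : Set d.Om, B₁ =
      Pool.OCM.RN20.few d.P x (fun _ => ()) (1 / 2) K 0 0 h (ca / 2) := ⟨_, rfl⟩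
  have hPB1 : Pr d.P B₁ ≤ ε / 8 := by
    by_contra hcon
    rw [not_le] at hcon
    have h3 := hrun d.Om Unit d.P x (fun _ => ()) (1 / 2) 0 h hp le_rfl hh3
      (by rw [← hB₁]; exact (show 0 < ε / 8 by positivity).trans hcon)
    have h4 := hact B₁ hcon.le
    rw [← hB₁] at h3
    have h5 : CH (cond d.P (fun ω => ω ∈ B₁) True) (Pool.OCM.RN20.dg x (0 + h))
        (fun ω => (Pool.OCM.RN20.dg x 0 ω, ())) =
        CH (cond d.P (fun ω => ω ∈ B₁) True) (fun ω => ⌊(2 : ℝ) ^ h * d.omR (d.L ω)⌋)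
            (fun ω => ⌊d.omR (d.L ω)⌋) := by
      refine CH_congr (cond_nonneg hp0 _ _) ?_ ?_ ?_ ?_
      · intro ω ω' _ _ hw
        have h6 := (Prod.ext_iff.mp hw).1
        simp only [Pool.OCM.RN20.dg, hx, zero_add] at h6
        exact h6
      · intro ω ω' _ _ hw
        have h6 := (Prod.ext_iff.mp hw).1
        simp only [Pool.OCM.RN20.dg, hx, zero_add]
        exact h6
      · intro ω ω' _ _ hw
        have h6 := (Prod.ext_iff.mp hw).1
        simp only [Pool.OCM.RN20.dg, hx, pow_zero, one_mul] at h6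
        exact h6
      · intro ω ω' _ _ hw
        refine Prod.ext ?_ rfl
        simp only [Pool.OCM.RN20.dg, hx, pow_zero, one_mul]
        exact hw
    rw [h5] at h3
    linarith
  -- the samples with many near pairs
  obtain ⟨S, hS⟩ : ∃ S : d.Om → ℝ, S = fun ω => ∑ i ∈ Finset.range d.X, d.dead k' i ω := ⟨_, rfl⟩
  obtain ⟨B₂, hB₂⟩ : ∃ B₂ : Set d.Om, B₂ = {ω | ca * κ / 16 * d.X < S ω} := ⟨_, rfl⟩
  have hPB2 : Pr d.P B₂ ≤ ε / 8 := by
    have h3 := Pool.KAL.CDF.markov hp0 S (fun ω _ => by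
      rw [hS]
      exact Finset.sum_nonneg fun i _ => dead_nonneg hp0 _ _ _) (ca * κ / 16 * d.X)
    have h4 : Ex d.P S ≤ ca * κ / 16 * (ε / 8) * d.X := by
      refine le_trans (le_of_eq ?_) hTB
      unfold Ex
      rw [hS]
      simp only [Finset.mul_sum]
      rw [Finset.sum_comm]
      exact Finset.sum_congr rfl fun i _ => sum_dead d k' i
    rw [← hB₂] at h3
    have h5 : Pr d.P B₂ * (ca * κ / 16 * d.X) ≤ ε / 8 * (ca * κ / 16 * d.X) := by
      refine h3.trans (h4.trans (le_of_eq ?_))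
      ring
    exact le_of_mul_le_mul_right h5 (by positivity)
  have key := hk d hd hXX h1 h2 (Finset.range d.X) h {ω | ω ∉ B₁ ∧ ω ∉ B₂}
    ⟨0, Finset.mem_range.mpr (by omega)⟩ hhX ?_
  · have h3 : Pr d.P {ω | ω ∉ B₁ ∧ ω ∉ B₂}ᶜ ≤ ε / 4 := by
      have h4 := Pr_union_le hp0 {ω | ω ∉ B₁ ∧ ω ∉ B₂}ᶜ B₁ B₂ (fun ω hω => by
        by_contra hcon
        rw [not_or] at hcon
        exact hω hcon)
      linarith
    have hl2 : 0 < Real.log 2 := Real.log_pos (by norm_num)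
    have h5 : (0 : ℝ) ≤ d.X * Real.log 2 := by positivity
    have h6 := mul_le_mul_of_nonneg_right h3 h5
    have h7 : (h : ℝ) * Real.log 2 ≤ ε / 4 * d.X * Real.log 2 := by
      refine mul_le_mul_of_nonneg_right (hh1.trans ?_) hl2.le
      exact mul_le_mul_of_nonneg_right hκε hX0'.le
    have h8 : 0 ≤ ε / 4 * (d.X * Real.log 2) := mul_nonneg (by positivity) h5
    refine le_trans ?_ key
    linarith
  · intro ω hω hpos r hr hrX
    have hω1 : ω ∉ B₁ := hω.1
    have hω2 : ω ∉ B₂ := hω.2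
    -- many active digits
    have h3 : ca / 2 * h ≤ ∑ j ∈ Finset.Ico 0 (0 + h),
        (if j ∈ Pool.OCM.RN20.rns d.P x (fun _ => ()) (1 / 2) K 0 ω then (1 : ℝ) else 0) := by
      rw [← Pool.OCM.RN20.ncard_sum]
      by_contra hcon
      rw [hB₁] at hω1
      exact hω1 (not_le.mp hcon)
    have h4 : ∀ j ∈ Finset.Ico 0 (0 + h),
        (if j ∈ Pool.OCM.RN20.rns d.P x (fun _ => ()) (1 / 2) K 0 ω then (1 : ℝ) else 0) ≤
          2 * d.act K j ω := by
      intro j hj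
      rw [zero_add, Finset.mem_Ico] at hj
      have ha0 := act_nonneg (d := d) hp0 K j ω
      split_ifs with hc
      · have h5 : Pool.OCM.RN20.acf d.P x (fun _ => ()) (1 / 2) (j - 0) (K + 0) ω := hc 0 le_rfl
        unfold Pool.OCM.RN20.acf at h5
        rw [Nat.sub_zero, Nat.add_zero] at h5
        have h6 : cond d.P (fun v => (Pool.OCM.RN20.dg x j v, ())) (Pool.OCM.RN20.dg x j ω, ()) =
            cond d.P (d.oc j) (d.oc j ω) := by
          refine cond_congr hp0 fun v _ => ?_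
          have e1 : ∀ v, Pool.OCM.RN20.dg x j v = d.oc j v := fun v => by
            rw [← floor_eq_oc d (by omega) v, hx]
            rfl
          rw [e1, e1]
          simp
        rw [h6] at h5
        unfold SD.act
        rw [hx] at h5
        linarith
      · linarith
    have h5 := h3.trans (Finset.sum_le_sum h4)
    rw [← Finset.mul_sum, zero_add, Nat.Ico_zero_eq_range] at h5
    have h6 : S ω ≤ ca * κ / 16 * d.X := by
      by_contra hcon
      rw [hB₂] at hω2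
      exact hω2 (not_le.mp hcon)
    have h7 : ∀ s ∈ Finset.range h, 0 ≤ d.act K s ω := fun s _ => act_nonneg hp0 _ _ _
    -- the pairs
    have h8 : ∑ s ∈ Finset.range h, d.act K s ω - S ω ≤
        ∑ i ∈ Finset.range d.X, if i ≤ r then d.act K (r - i) ω * (1 - d.dead k' i ω) else 0 := by
      have h9 : ∑ s ∈ Finset.range h, d.act K s ω ≤
          ∑ i ∈ Finset.range d.X, if i ≤ r then d.act K (r - i) ω else 0 := by
        rw [← Finset.sum_filter]
        have e1 : ∑ s ∈ Finset.range h, d.act K s ω =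
            ∑ i ∈ (Finset.range h).image (fun s => r - s), d.act K (r - i) ω := by
          rw [Finset.sum_image]
          · refine Finset.sum_congr rfl fun s hs => ?_
            rw [Finset.mem_range] at hs
            have : r - (r - s) = s := by omega
            rw [this]
          · intro a ha b hb hab
            have ha' := Finset.mem_range.mp ha
            have hb' := Finset.mem_range.mp hb
            have hab' : r - a = r - b := hab
            omega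
        rw [e1]
        refine Finset.sum_le_sum_of_subset_of_nonneg ?_ fun i _ _ => act_nonneg hp0 _ _ _
        intro i hi
        obtain ⟨s, hs, rfl⟩ := Finset.mem_image.mp hi
        rw [Finset.mem_range] at hs
        rw [Finset.mem_filter, Finset.mem_range]
        omega
      have h10 : ∀ i ∈ Finset.range d.X, (if i ≤ r then d.act K (r - i) ω else 0) -
          d.dead k' i ω ≤ (if i ≤ r then d.act K (r - i) ω * (1 - d.dead k' i ω) else 0) := by
        intro i _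
        have b0 := dead_nonneg (d := d) hp0 k' i ω
        split_ifs
        · have a1 := act_le_one hp K (r - i) hpos
          have h11 : d.act K (r - i) ω * d.dead k' i ω ≤ 1 * d.dead k' i ω :=
            mul_le_mul_of_nonneg_right a1 b0
          linarith
        · linarith
      have h11 := Finset.sum_le_sum h10
      rw [Finset.sum_sub_distrib] at h11
      rw [hS]
      linarith
    rw [Finset.card_range]
    refine le_trans ?_ h8
    have h12 : ca * (κ * d.X / 2) ≤ ca * h := mul_le_mul_of_nonneg_left hh4 hca.le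
    linarith

end Pool.KGS
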